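import Pool.Agent.X168.BU.Sum
import Pool.Agent.X168.BU.Torus

/-!
# `ℂP³ # T⁶` is symplectic

The connected sum `W` of `ℂP³` and of the torus `T⁶ = (ℝ/ℤ)⁶` carries a symplectic form, that is
a smooth closed nondegenerate two-form.

All manifolds are modelled on the real vector space `V 3 = ℂ³` of dimension six. `a : ℂ³ → T⁶` is
a smoothly embedded disc. The connected sum is formed with `a` and with the disc
`stdDisc 3 : v ↦ [v : 1]` of `ℂP³`, which preserves the complex orientation, and the same `W` is a
connected sum formed with the disc `conjDisc 3 : v ↦ [conj v : 1]`, which reverses it: so it does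
not matter how `ℂP³` and `T⁶` are oriented.
-/

set_option autoImplicit false

open Set
open scoped Manifold ContDiff

namespace Pool.Agent.Results.MP_11690a_gt.SymplecticForm

open Pool.Agent.X168.BU

theorem result :
    ∃ (W : Type) (_ : TopologicalSpace W) (_ : ChartedSpace (V 3) W) (a : V 3 → T6) (i : T6 → W)
      (j j' : CP 3 → W) (Ω : Form 3 W 2),
      IsClosedMfd 3 W ∧ IsConnectedSum a (stdDisc 3) i j ∧ IsConnectedSum a (conjDisc 3) i j' ∧
      IsSymplectic Ω := by
  obtain ⟨η, hη⟩ := exists_symplectic_T6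
  obtain ⟨W, iT, iC, a, i, j, Ω, h1, h2, h3, h4, h5, h6, h7, h8⟩ :=
    exists_blow_sum (by norm_num) hη (toT6 0)
  exact ⟨W, iT, iC, a, i, j, fun p => j (conjCP p), Ω, ⟨h1, h2, h3 inferInstance⟩, h6,
    h6.conj, h7⟩

end Pool.Agent.Results.MP_11690a_gt.SymplecticForm
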